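import Mathlib
import Pool.Agent.V11205.PCA.Growth

set_option autoImplicit false

namespace Pool.Agent.Results.MP_998f06_co.UnboundedPopulationRatio

/-- A cell state `(t, r, b, l)`: the top, right, bottom and left part; `true` is the value `1`. -/
abbrev St := Bool × Bool × Bool × Bool

/-- the part projections -/
def prT (s : St) : Bool := s.1
def prR (s : St) : Bool := s.2.1
def prB (s : St) : Bool := s.2.2.1
def prL (s : St) : Bool := s.2.2.2

/-- configurations `α : ℤ² → {0,1}⁴` -/
abbrev Cfg := ℤ × ℤ → St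

/-- The global map of a local function, as in the problem:
`F(α)(x) = f(pr_T α(x+(0,1)), pr_R α(x+(1,0)), pr_B α(x+(0,-1)), pr_L α(x+(-1,0)))`. -/
def F (f : St → St) (α : Cfg) : Cfg := fun x =>
  f (prT (α (x + (0, 1))), prR (α (x + (1, 0))), prB (α (x + (0, -1))), prL (α (x + (-1, 0))))

/-- `f(t,r,b,l) = (t',r',b',l')` implies `f(r,b,l,t) = (r',b',l',t')` -/
def RotationSymmetric (f : St → St) : Prop :=
  ∀ t r b l t' r' b' l' : Bool, f (t, r, b, l) = (t', r', b', l') →
    f (r, b, l, t) = (r', b', l', t')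

/-- the all-zero state is quiescent -/
def Quiescent (f : St → St) : Prop :=
  f (false, false, false, false) = (false, false, false, false)

/-- the number of `1`s of a cell state -/
def ones (s : St) : ℕ := (prT s).toNat + (prR s).toNat + (prB s).toNat + (prL s).toNat

/-- `f` preserves the number of `1`s of every cell state -/
def Conservative (f : St → St) : Prop := ∀ s, ones (f s) = ones s

/-- only finitely many cells are non-zero -/
def IsFinite (α : Cfg) : Prop := {x | α x ≠ (false, false, false, false)}.Finite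

/-- the total number of `1`s over all parts of all cells -/
noncomputable def popul (α : Cfg) : ℕ := ∑ᶠ x, ones (α x)

/-- a periodic pattern: a non-null finite configuration that returns to itself -/
def IsPeriodicPattern (f : St → St) (α : Cfg) : Prop :=
  α ≠ (fun _ => (false, false, false, false)) ∧ IsFinite α ∧ ∃ n, 1 ≤ n ∧ (F f)^[n] α = α

/-! ### Transfer -/

/-- exchange opposite parts -/
def sw (s : St) : St := (s.2.2.1, s.2.2.2, s.1, s.2.1)

/-- the local function in the conventions of the problem -/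
def g0 (s : St) : St := sw (Pool.Agent.V11205.PCA.f0 s)

/-- exchange opposite parts in all cells -/
def Sw (c : Pool.Agent.V11205.PCA.Cfg) : Cfg := fun x => sw (c x.1 x.2)

lemma sw_sw (s : St) : sw (sw s) = s := rfl

lemma Sw_surj : Function.Surjective Sw := by
  intro α
  refine ⟨fun x y => sw (α (x, y)), ?_⟩
  funext x
  rfl

lemma Sw_inj : Function.Injective Sw := by
  intro c c' h
  funext x y
  have := congrArg sw (congrFun h (x, y))
  exact this

lemma F_Sw (c : Pool.Agent.V11205.PCA.Cfg) : F g0 (Sw c) = Sw (Pool.Agent.V11205.PCA.step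
    Pool.Agent.V11205.PCA.f0 c) := by
  funext x
  obtain ⟨x, y⟩ := x
  simp only [F, Sw, g0, prT, prR, prB, prL, sw, Prod.mk_add_mk, add_zero,
    Pool.Agent.V11205.PCA.step, ← sub_eq_add_neg]

lemma F_iter (c : Pool.Agent.V11205.PCA.Cfg) (i : ℕ) : (F g0)^[i] (Sw c) =
    Sw ((Pool.Agent.V11205.PCA.step Pool.Agent.V11205.PCA.f0)^[i] c) := by
  induction i with
  | zero => rfl
  | succ i ih => rw [Function.iterate_succ_apply', Function.iterate_succ_apply', ih, F_Sw]

lemma isFinite_Sw (c : Pool.Agent.V11205.PCA.Cfg)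
    (h : (Pool.Agent.V11205.PCA.particles c).Finite) : IsFinite (Sw c) := by
  have h1 := h.image (fun q : ℤ × ℤ × Fin 4 => (q.1, q.2.1))
  refine h1.subset ?_
  rintro ⟨x, y⟩ hx
  simp only [Set.mem_ofPred_eq, Sw, sw, ne_eq, Prod.mk.injEq, not_and] at hx
  by_contra hn
  have key : ∀ i : Fin 4, Pool.Agent.V11205.PCA.part (c x y) i = false := by
    intro i
    by_contra hi
    rw [Bool.not_eq_false] at hi
    exact hn ⟨(x, y, i), hi, rfl⟩
  exact hx (key 2) (key 3) (key 0) (key 1)

lemma ones_eq (s : St) : ones s = ∑ i : Fin 4,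
    (if Pool.Agent.V11205.PCA.part s i = true then 1 else 0) := by
  revert s; decide

lemma ones_sw (s : St) : ones (sw s) = ones s := by
  revert s; decide

lemma popul_Sw (c : Pool.Agent.V11205.PCA.Cfg)
    (h : (Pool.Agent.V11205.PCA.particles c).Finite) :
    popul (Sw c) = Pool.Agent.V11205.PCA.pop c := by
  classical
  let T : Finset (ℤ × ℤ) := h.toFinset.image (fun q : ℤ × ℤ × Fin 4 => (q.1, q.2.1))
  let P : Finset ((ℤ × ℤ) × Fin 4) := (T ×ˢ (Finset.univ : Finset (Fin 4))).filter
    (fun q => Pool.Agent.V11205.PCA.part (c q.1.1 q.1.2) q.2 = true)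
  have hg : Function.Injective (fun q : (ℤ × ℤ) × Fin 4 => (q.1.1, q.1.2, q.2)) := by
    rintro ⟨⟨a, b⟩, i⟩ ⟨⟨a', b'⟩, i'⟩ hh
    simp only [Prod.mk.injEq] at hh
    obtain ⟨h1, h2, h3⟩ := hh
    subst h1; subst h2; subst h3; rfl
  have hP : Pool.Agent.V11205.PCA.particles c =
      (fun q : (ℤ × ℤ) × Fin 4 => (q.1.1, q.1.2, q.2)) '' (P : Set ((ℤ × ℤ) × Fin 4)) := by
    ext ⟨x, y, i⟩
    constructor
    · intro hq
      refine ⟨((x, y), i), ?_, rfl⟩
      simp only [P, T, Finset.coe_filter, Finset.mem_product, Finset.mem_image,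
        Set.Finite.mem_toFinset, Finset.mem_univ, and_true, Set.mem_ofPred_eq]
      exact ⟨⟨(x, y, i), hq, rfl⟩, hq⟩
    · rintro ⟨⟨⟨a, b⟩, j⟩, hq, hh⟩
      simp only [Prod.mk.injEq] at hh
      obtain ⟨h1, h2, h3⟩ := hh
      subst h1; subst h2; subst h3
      simp only [P, Finset.coe_filter, Set.mem_ofPred_eq] at hq
      exact hq.2
  have h1 : Pool.Agent.V11205.PCA.pop c = P.card := by
    unfold Pool.Agent.V11205.PCA.pop
    rw [hP, Set.ncard_image_of_injective _ hg, Set.ncard_coe_finset]
  have h2 : P.card = ∑ x ∈ T, ones (Sw c x) := by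
    simp only [P, Finset.card_filter]
    rw [Finset.sum_product]
    refine Finset.sum_congr rfl ?_
    intro x _
    simp only [Sw]
    rw [ones_sw, ones_eq]
  rw [h1, h2]
  unfold popul
  refine finsum_eq_sum_of_support_subset _ ?_
  intro x hx
  have hx : ones (Sw c x) ≠ 0 := hx
  by_contra hn
  apply hx
  have key : ∀ i : Fin 4, Pool.Agent.V11205.PCA.part (c x.1 x.2) i = false := by
    intro i
    by_contra hi
    rw [Bool.not_eq_false] at hi
    apply hn
    simp only [T, Finset.coe_image, Set.mem_image, Finset.mem_coe, Set.Finite.mem_toFinset]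
    exact ⟨(x.1, x.2, i), hi, rfl⟩
  simp only [Sw]
  rw [ones_sw, ones_eq]
  simp [key]

lemma F_inj : Function.Injective (F g0) := by
  intro α β h
  obtain ⟨c, rfl⟩ := Sw_surj α
  obtain ⟨d, rfl⟩ := Sw_surj β
  rw [F_Sw, F_Sw] at h
  rw [Pool.Agent.V11205.PCA.step_inj (Sw_inj h)]

/-- There is a reversible non-conservative ESPCA in which the ratio `p_max / p_min` of the largest
to the smallest population takes arbitrarily large values on periodic patterns. In particular the
ratio exceeds `17` (Q1), and no constant bounds it (Q2). -/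
theorem result : ∃ f : St → St, Quiescent f ∧ RotationSymmetric f ∧ Function.Injective (F f) ∧
    Function.Injective f ∧ ¬ Conservative f ∧
    ∀ C : ℝ, ∃ α : Cfg, IsPeriodicPattern f α ∧ ∃ pmax pmin : ℕ,
      IsGreatest (Set.range fun t : ℕ => popul ((F f)^[t] α)) pmax ∧
      IsLeast (Set.range fun t : ℕ => popul ((F f)^[t] α)) pmin ∧
      1 ≤ pmin ∧ C < (pmax : ℝ) / (pmin : ℝ) := by
  refine ⟨g0, rfl, ?_, F_inj, ?_, ?_, ?_⟩
  · unfold RotationSymmetric; decide
  · intro a b h
    exact Pool.Agent.V11205.PCA.f0_inj (congrArg sw h)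
  · intro h
    have := h (true, true, false, false)
    revert this
    decide
  intro C
  obtain ⟨M, hM⟩ := exists_nat_gt C
  obtain ⟨c, hfin, hne, ⟨p, hp, hper⟩, i, hi⟩ := Pool.Agent.V11205.PCA.growth M
  have hpop : ∀ t, popul ((F g0)^[t] (Sw c)) =
      Pool.Agent.V11205.PCA.pop ((Pool.Agent.V11205.PCA.step Pool.Agent.V11205.PCA.f0)^[t] c) := by
    intro t
    rw [F_iter, popul_Sw _ (hfin t)]
  have hpos : ∀ t, 1 ≤ popul ((F g0)^[t] (Sw c)) := by
    intro t
    rw [hpop]
    unfold Pool.Agent.V11205.PCA.pop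
    exact (Set.ncard_pos (hfin t)).2 (hne t)
  have hper' : (F g0)^[p] (Sw c) = Sw c := by rw [F_iter, hper]
  set R : Set ℕ := Set.range fun t : ℕ => popul ((F g0)^[t] (Sw c)) with hR
  have hRne : R.Nonempty := Set.range_nonempty _
  have hRfin : R.Finite := by
    refine ((Set.finite_lt_nat p).image (fun t => popul ((F g0)^[t] (Sw c)))).subset ?_
    rintro _ ⟨t, rfl⟩
    refine ⟨t % p, Nat.mod_lt _ (by omega), ?_⟩
    have e : (F g0)^[t % p] (Sw c) = (F g0)^[t] (Sw c) :=
      Function.IsPeriodicPt.iterate_mod_apply hper' t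
    simp only [e]
  obtain ⟨a, ha⟩ : ∃ a, IsGreatest R a := by
    have h1 := hRfin.toFinset.isGreatest_max' ((Set.Finite.toFinset_nonempty hRfin).2 hRne)
    rw [Set.Finite.coe_toFinset] at h1
    exact ⟨_, h1⟩
  obtain ⟨b, hb⟩ : ∃ b, IsLeast R b := ⟨_, Nat.sInf_mem hRne, fun x hx => Nat.sInf_le hx⟩
  refine ⟨Sw c, ⟨?_, isFinite_Sw c (hfin 0), p, hp, hper'⟩, a, b, ha, hb, ?_, ?_⟩
  · intro h0
    have h1 := hpos 0
    have h2 : (F g0)^[0] (Sw c) = fun _ => (false, false, false, false) := h0
    rw [h2] at h1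
    have : popul (fun _ => (false, false, false, false)) = 0 := by
      unfold popul
      have : ones (false, false, false, false) = 0 := rfl
      simp only [this, finsum_zero]
    omega
  · obtain ⟨t, ht⟩ := hb.1
    rw [← ht]
    exact hpos t
  · have hb1 : 1 ≤ b := by
      obtain ⟨t, ht⟩ := hb.1
      rw [← ht]
      exact hpos t
    have hb2 : b ≤ Pool.Agent.V11205.PCA.pop c := by
      have := hb.2 (Set.mem_range_self (f := fun t : ℕ => popul ((F g0)^[t] (Sw c))) 0)
      rw [hpop] at this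
      exact this
    have ha2 : Pool.Agent.V11205.PCA.pop
        ((Pool.Agent.V11205.PCA.step Pool.Agent.V11205.PCA.f0)^[i] c) ≤ a := by
      have := ha.2 (Set.mem_range_self (f := fun t : ℕ => popul ((F g0)^[t] (Sw c))) i)
      rw [hpop] at this
      exact this
    have hlt : M * b < a := lt_of_le_of_lt (Nat.mul_le_mul_left _ hb2) (lt_of_lt_of_le hi ha2)
    rw [lt_div_iff₀ (by exact_mod_cast hb1)]
    have h3 : ((M * b : ℕ) : ℝ) < (a : ℝ) := by exact_mod_cast hlt
    push_cast at h3
    have hb0 : (0 : ℝ) ≤ (b : ℝ) := by positivity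
    nlinarith

end Pool.Agent.Results.MP_998f06_co.UnboundedPopulationRatio
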